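import Pool.Agent.helper62.MS.SpecE

/-!
# MP_07c750, project MS, row FEK: Fekete's lemma for the entropy
-/

set_option autoImplicit false

open scoped MatrixGroups Topology UpperHalfPlane
open UpperHalfPlane MeasureTheory Filter Set

namespace Pool.Agent.MS

open Pool.Agent.EN (XG MG mkX mkM fl pr Hn)

theorem FEK_proof (hHSB : EN.HSB_stmt) (hHLG : EN.HLG_stmt) : FEK_stmt := by
  intro X _ μ T p P hμ hT hP
  have hmap : ∀ a : ℕ, μ.map (T^[a]) = μ := fun a => (hT.iterate a).map_eq
  have hsub : Subadditive (fun n : ℕ => Hn μ T P n) := by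
    intro a b
    have h := hHSB X μ T p P a b hμ hT.measurable hP
    rwa [hmap a] at h
  have hnn : ∀ n : ℕ, 0 ≤ Hn μ T P n := fun n => (hHLG X μ T p P n hμ hT.measurable hP).1
  have hbdd : BddBelow (Set.range fun n : ℕ => Hn μ T P n / (n : ℝ)) := by
    refine ⟨0, ?_⟩
    rintro _ ⟨n, rfl⟩
    exact div_nonneg (hnn n) (Nat.cast_nonneg n)
  have hlim := hsub.tendsto_lim hbdd
  refine ⟨hsub.lim, ?_, hlim, ?_⟩
  · exact ge_of_tendsto' hlim fun n => div_nonneg (hnn n) (Nat.cast_nonneg n)
  · apply le_antisymm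
    · refine le_iInf fun n => EReal.coe_le_coe ?_
      have h := hsub.lim_le_div hbdd (Nat.succ_ne_zero n)
      rw [Nat.cast_succ] at h
      exact h
    · have h1 : Tendsto (fun n : ℕ => ((Hn μ T P (n + 1) / ((n : ℝ) + 1) : ℝ) : EReal)) atTop (𝓝 (hsub.lim : EReal)) := by
        have h2 := (continuous_coe_real_ereal.tendsto _).comp (hlim.comp (tendsto_add_atTop_nat 1))
        refine h2.congr fun n => ?_
        simp only [Function.comp_apply]
        rw [Nat.cast_succ]
      exact ge_of_tendsto' h1 fun n => iInf_le _ n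

end Pool.Agent.MS
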