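import Pool.Agent.helper62.MS.SpecD
import Pool.Agent.helper13.MS.SS1

/-!
# Row ms:SS3 (MP_07c750): Schur's bound over thin boxes
-/

set_option autoImplicit false

open scoped MatrixGroups ContDiff Topology UpperHalfPlane ComplexConjugate
open UpperHalfPlane MeasureTheory Filter Set

namespace Pool.Agent.MS

open Pool.Agent.RS
open Pool.Agent.EN (XG MG mkX mkM fl pr)

theorem SS3_sheet (Γ : Subgroup SL(2, ℝ)) (hc : Countable Γ) (a b c : ℝ) (y g : SL(2, ℝ)) :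
    MeasurableSet {k : SL(2, ℝ) | ∃ γ : Γ, bq a b c (y⁻¹ * (γ : SL(2, ℝ)) * (g * k⁻¹))} := by
  have he : {k : SL(2, ℝ) | ∃ γ : Γ, bq a b c (y⁻¹ * (γ : SL(2, ℝ)) * (g * k⁻¹))} =
      ⋃ γ : Γ, {k : SL(2, ℝ) | bq a b c (y⁻¹ * (γ : SL(2, ℝ)) * (g * k⁻¹))} := by
    ext k
    simp only [mem_ofPred_eq, mem_iUnion]
  rw [he]
  refine MeasurableSet.iUnion fun γ => IsClosed.measurableSet ?_
  have hm : Continuous fun k : SL(2, ℝ) => y⁻¹ * (γ : SL(2, ℝ)) * (g * k⁻¹) :=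
    continuous_const.mul (continuous_const.mul continuous_inv)
  have e : ∀ i j, Continuous fun k : SL(2, ℝ) => (y⁻¹ * (γ : SL(2, ℝ)) * (g * k⁻¹)).1 i j :=
    fun i j => (SS1_ent i j).comp hm
  unfold bq
  exact ((isClosed_le ((e 0 0).sub continuous_const).abs continuous_const).inter
    ((isClosed_le ((e 1 1).sub continuous_const).abs continuous_const).inter
    ((isClosed_le (e 0 1).abs continuous_const).inter (isClosed_le (e 1 0).abs continuous_const))))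

theorem SS3_proof (hHD2 : HD2_stmt) (hDYA : DYA_stmt) (hOSC : OSC_stmt) (hGKF : GKF_stmt) : SS3_stmt := by
  intro Γ β0 α0 β α hΓ hβ0 hα0 hβ hα
  have hc := SS1_count Γ hΓ
  obtain ⟨C1, hC1, h1⟩ := hOSC β0 α0 β α hβ0 hα0 hβ hα
  obtain ⟨C2, hC2, h2⟩ := hHD2 Γ hΓ
  refine ⟨16 * C1 * C2, by positivity, ?_⟩
  intro a T r v A g ha haa hT hr hv hv1
  have hE : 0 < Real.exp (-T) := Real.exp_pos _
  have hE2 : 0 < Real.exp (-(T / 2)) := Real.exp_pos _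
  have hlam : 0 < Real.exp (-T) * r := mul_pos hE (by linarith)
  have hr0 : 0 < r := by linarith
  have key : ∀ y : SL(2, ℝ), ∫⁻ k in {k : SL(2, ℝ) | ∃ γ : Γ, bq a v a (y⁻¹ * (γ : SL(2, ℝ)) * (g * k⁻¹))},
      ENNReal.ofReal ‖gk r (pc (st (-T) β0) α0) (pc β α) k‖ ∂mG ≤
      ENNReal.ofReal (C1 * Real.exp (-(T / 2))) *
        ENNReal.ofReal (16 * (0 + C2 * v / (Real.exp (-T) * r))) := by
    intro y
    refine SS1_one hDYA (fun k => ‖gk r (pc (st (-T) β0) α0) (pc β α) k‖) _ _ _ _ _ (SS3_sheet Γ hc _ _ _ y g)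
      (by positivity) le_rfl (by positivity) hlam ?_ ?_ ?_
    · intro k
      have := h1 T r k hT hr
      rw [mul_one_div]
      exact this
    · intro k hk
      exact (hGKF β0 α0 β α T r k hβ0 hα0 hβ hα hT hr).1 (fun h0 => hk (by
        change ‖gk r (pc (st (-T) β0) α0) (pc β α) k‖ = 0
        rw [h0, norm_zero]))
    · intro ρ hρ
      have := h2 a v ρ y g ha haa hv hv1 hρ
      rw [zero_add]
      exact this
  have hsub : {k : SL(2, ℝ) | ∃ y ∈ A, ∃ γ : Γ, bq a v a (y⁻¹ * (γ : SL(2, ℝ)) * (g * k⁻¹))} ⊆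
      ⋃ y : A, {k : SL(2, ℝ) | ∃ γ : Γ, bq a v a ((y : SL(2, ℝ))⁻¹ * (γ : SL(2, ℝ)) * (g * k⁻¹))} := by
    rintro k ⟨y, hy, hk⟩
    exact mem_iUnion.2 ⟨⟨y, hy⟩, hk⟩
  have e2 : Real.exp (-(T / 2)) * (C2 * v / (Real.exp (-T) * r)) = C2 * v * Real.exp (T / 2) / r := by
    have e3 : Real.exp (-(T / 2)) = Real.exp (T / 2) * Real.exp (-T) := by
      rw [← Real.exp_add]
      congr 1
      ring
    rw [e3]
    field_simp
  calc ∫⁻ k in {k : SL(2, ℝ) | ∃ y ∈ A, ∃ γ : Γ, bq a v a (y⁻¹ * (γ : SL(2, ℝ)) * (g * k⁻¹))},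
      ENNReal.ofReal ‖gk r (pc (st (-T) β0) α0) (pc β α) k‖ ∂mG ≤
      ∫⁻ k in ⋃ y : A, {k : SL(2, ℝ) | ∃ γ : Γ, bq a v a ((y : SL(2, ℝ))⁻¹ * (γ : SL(2, ℝ)) * (g * k⁻¹))},
      ENNReal.ofReal ‖gk r (pc (st (-T) β0) α0) (pc β α) k‖ ∂mG := lintegral_mono_set hsub
    _ ≤ ∑' y : A, ∫⁻ k in {k : SL(2, ℝ) | ∃ γ : Γ, bq a v a ((y : SL(2, ℝ))⁻¹ * (γ : SL(2, ℝ)) * (g * k⁻¹))},
      ENNReal.ofReal ‖gk r (pc (st (-T) β0) α0) (pc β α) k‖ ∂mG := lintegral_iUnion_le _ _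
    _ ≤ ∑' y : A, ENNReal.ofReal (C1 * Real.exp (-(T / 2))) *
        ENNReal.ofReal (16 * (0 + C2 * v / (Real.exp (-T) * r))) :=
        ENNReal.tsum_le_tsum fun y => key y
    _ = (A.card : ENNReal) * (ENNReal.ofReal (C1 * Real.exp (-(T / 2))) *
        ENNReal.ofReal (16 * (0 + C2 * v / (Real.exp (-T) * r)))) := by
        rw [tsum_fintype, Finset.sum_const, nsmul_eq_mul, Finset.card_univ, Fintype.card_coe]
    _ = ENNReal.ofReal (16 * C1 * C2 * A.card * v * Real.exp (T / 2) / r) := by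
        rw [← ENNReal.ofReal_mul (by positivity), ← ENNReal.ofReal_natCast, ← ENNReal.ofReal_mul (by positivity)]
        congr 1
        calc (A.card : ℝ) * (C1 * Real.exp (-(T / 2)) * (16 * (0 + C2 * v / (Real.exp (-T) * r)))) =
            16 * C1 * A.card * (Real.exp (-(T / 2)) * (C2 * v / (Real.exp (-T) * r))) := by ring
          _ = 16 * C1 * A.card * (C2 * v * Real.exp (T / 2) / r) := by rw [e2]
          _ = 16 * C1 * C2 * A.card * v * Real.exp (T / 2) / r := by ring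

end Pool.Agent.MS
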