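import Pool.Agent.helper57.MS.Spec

set_option autoImplicit false

open Finset

namespace Pool.Agent.helper57.MS

open Pool.Agent.RRank Pool.Agent.helper26.IM

theorem FSE : FSE_stmt := by
  intro K _ Ω _ Q F S PP g hg
  have h : F.Fs PP ≤ Subalgebra.toSubmodule (F.E S) := by
    refine Submodule.span_le.2 ?_
    rintro f ⟨P, _, h, hh, rfl⟩
    show _ ∈ F.E S
    refine Subalgebra.prod_mem _ fun I hI => ?_
    exact F.mono I S (P.le hI) (hh I hI)
  exact h hg

end Pool.Agent.helper57.MS
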