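import Pool.Agent.helper57.MS.Spec

set_option autoImplicit false

open Finset

namespace Pool.Agent.helper57.MS

open Pool.Agent.RRank Pool.Agent.helper26.IM

theorem LKL : LKL_stmt := by
  intro Ω _ S J hJ hJS
  have hne : J ≠ ⊥ := by
    rw [Finset.bot_eq_empty]
    exact hJ.ne_empty
  have hdis : Disjoint (S \ J) J := Finset.sdiff_disjoint
  have hun : (S \ J) ⊔ J = S := by
    rw [Finset.sup_eq_union, Finset.sdiff_union_of_subset hJS]
  refine ⟨?_, ?_⟩
  · intro PP hPP P' P'' hle hP'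
    obtain ⟨P, hP, hparts⟩ := hP'
    refine ⟨P''.extend hne hdis hun, ?_, rfl⟩
    refine hPP ?_ hP
    intro I hI
    have hI' : I ∈ insert J P''.parts := hI
    rw [hparts]
    rcases Finset.mem_insert.1 hI' with rfl | hI''
    · exact ⟨I, Finset.mem_insert_self _ _, le_refl _⟩
    · obtain ⟨I', h1, h2⟩ := hle hI''
      exact ⟨I', Finset.mem_insert_of_mem h1, h2⟩
  · intro PP₁ PP₂
    ext P'
    constructor
    · rintro ⟨P, hP, hparts⟩
      exact ⟨⟨P, hP.1, hparts⟩, ⟨P, hP.2, hparts⟩⟩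
    · rintro ⟨⟨P₁, h1, e1⟩, ⟨P₂, h2, e2⟩⟩
      have e : P₁ = P₂ := Finpartition.ext (e1.trans e2.symm)
      refine ⟨P₁, ⟨h1, ?_⟩, e1⟩
      rw [e]
      exact h2

end Pool.Agent.helper57.MS
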