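import Pool.Agent.helper57.MS.Spec

set_option autoImplicit false

open Finset

namespace Pool.Agent.helper57.MS

open Pool.Agent.RRank Pool.Agent.helper26.IM

theorem STAR_Hempty {K : Type} [Field K] {d l : ℕ} {Q : Fin d → Type} (c : K)
    (x : (w : Fin d × Fin l) → Q w.1) :
    H l (∅ : Finset (Fin d)) (fun _ : ((α : Fin d) → Q α) => c) x = (l.factorial : K) ^ d * c ^ l := by
  unfold H
  have h1 : ∀ σ : Fin d → Equiv.Perm (Fin l), sg K (∅ : Finset (Fin d)) σ •
      (∏ i : Fin l, cop (fun _ : ((α : Fin d) → Q α) => c) (fun α => σ α i)) =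
      fun _ : ((w : Fin d × Fin l) → Q w.1) => c ^ l := by
    intro σ
    funext y
    unfold sg cop
    rw [Finset.prod_empty, one_smul, Finset.prod_apply, Finset.prod_const, Finset.card_univ,
      Fintype.card_fin]
  rw [Finset.sum_congr rfl fun σ _ => h1 σ, Finset.sum_const, Finset.card_univ, Fintype.card_pi,
    Finset.prod_const, Finset.card_univ, Fintype.card_fin, Fintype.card_perm, Fintype.card_fin,
    Pi.smul_apply, nsmul_eq_mul]
  push_cast
  rfl

theorem STAR (hBAS : BAS_stmt) (hIDB : IDB_stmt) (hEXP : EXP_stmt) (hSTEP : STEP_stmt)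
    (hLNE : LNE_stmt) : STAR_stmt := by
  classical
  intro K _ d l Q G hl S
  induction hn : S.card using Nat.strong_induction_on generalizing S with
  | _ n ih =>
    intro AA g hg hH
    rcases S.eq_empty_or_nonempty with hS | ⟨s₀, hs₀⟩
    · subst hS
      have hdep := G.F.dep ∅ g hg
      by_cases hne : Nonempty ((α : Fin d) → Q α)
      · obtain ⟨x₀⟩ := hne
        have hconst : g = fun _ => g x₀ := by
          funext x
          apply hdep
          intro i hi
          rw [Finset.coe_empty] at hi
          exact absurd hi (Set.notMem_empty i)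
        rcases AA.eq_empty_or_nonempty with hAA | ⟨A, hA⟩
        · have h1 : (1 : ((α : Fin d) → Q α) → K) ∈
              G.F.Fs {P : Finpartition (∅ : Finset (Fin d)) | ∀ A ∈ AA, OddP A P} := by
            refine Submodule.subset_span ⟨⊥, ?_, fun _ => 1, fun I _ => Subalgebra.one_mem _, ?_⟩
            · intro A hA
              rw [hAA] at hA
              exact absurd hA (Finset.notMem_empty A)
            · rw [Finset.prod_const_one]
          have h2 : g = g x₀ • (1 : ((α : Fin d) → Q α) → K) := by
            rw [hconst]
            funext x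
            simp
          rw [h2]
          exact Submodule.smul_mem _ _ h1
        · have h1 := hH A hA
          rw [Finset.inter_empty] at h1
          have h2 := congrFun h1 (fun w => x₀ w.1)
          rw [hconst, STAR_Hempty] at h2
          have h3 : (l.factorial : K) ^ d ≠ 0 := pow_ne_zero _ hl
          have h4 : g x₀ ^ l = 0 := (mul_eq_zero.1 h2).resolve_left h3
          have h5 : g x₀ = 0 := eq_zero_of_pow_eq_zero h4
          have h6 : g = 0 := by
            rw [hconst, h5]
            rfl
          rw [h6]
          exact Submodule.zero_mem _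
      · have h6 : g = 0 := by
          funext x
          exact absurd ⟨x⟩ hne
        rw [h6]
        exact Submodule.zero_mem _
    · obtain ⟨B, hB⟩ := hBAS K (Fin d) Q G.F
      obtain ⟨κ, iκ, J, b, r, hJ, hb, hr, hinj, hsum⟩ := hEXP K (Fin d) Q G.F B hB S s₀ hs₀ g hg
      have hInd := hIDB K (Fin d) Q G.F B hB κ J b hb hinj
      have hbE : ∀ k, b k ∈ G.F.E (J k) := fun k => hB.mem (J k) (b k) (hb k)
      rw [hsum]
      refine Submodule.sum_mem _ fun k _ => ?_
      have hJne : (J k).Nonempty := ⟨s₀, (hJ k).1⟩
      refine hLNE K (Fin d) Q G.F S (J k) _ hJne (hJ k).2 (b k) (hbE k) (r k) ?_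
      -- the induction hypothesis
      have hcard : (S \ J k).card < n := by
        rw [← hn]
        refine Finset.card_lt_card ?_
        rw [Finset.ssubset_iff_of_subset Finset.sdiff_subset]
        refine ⟨s₀, hs₀, ?_⟩
        rw [Finset.mem_sdiff]
        rintro ⟨_, h⟩
        exact h (hJ k).1
      have hI := ih _ hcard (S \ J k) rfl (AA.filter fun A => Even (J k ∩ A).card) (r k) (hr k) (by
        intro A hA
        rw [Finset.mem_filter] at hA
        have h1 := hH A hA.1
        rw [hsum] at h1
        have e1 : J k ∩ (A ∩ S) = J k ∩ A := by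
          ext i
          simp only [Finset.mem_inter]
          constructor
          · rintro ⟨h1, h2, _⟩
            exact ⟨h1, h2⟩
          · rintro ⟨h1, h2⟩
            exact ⟨h1, h2, (hJ k).2 h1⟩
        have e2 : (A ∩ S) \ J k = A ∩ (S \ J k) := by
          ext i
          simp only [Finset.mem_inter, Finset.mem_sdiff]
          tauto
        have h2 := hSTEP K d l Q G S (A ∩ S) s₀ κ J b r hJ hbE hr hInd h1 k (by
          rw [e1]
          exact hA.2)
        rw [e2] at h2
        exact h2)
      refine (Submodule.span_mono ?_) hI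
      rintro f ⟨P', hP', h, hh, rfl⟩
      refine ⟨P', ?_, h, hh, rfl⟩
      have hne : J k ≠ ⊥ := by
        rw [Finset.bot_eq_empty]
        exact hJne.ne_empty
      have hdis : Disjoint (S \ J k) (J k) := Finset.sdiff_disjoint
      have hun : (S \ J k) ⊔ J k = S := by
        rw [Finset.sup_eq_union, Finset.sdiff_union_of_subset (hJ k).2]
      refine ⟨P'.extend hne hdis hun, ?_, rfl⟩
      intro A hA
      by_cases he : Even (J k ∩ A).card
      · obtain ⟨I, hI1, hI2⟩ := hP' A (Finset.mem_filter.2 ⟨hA, he⟩)
        exact ⟨I, Finset.mem_insert_of_mem hI1, hI2⟩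
      · exact ⟨J k, Finset.mem_insert_self _ _, Nat.not_even_iff_odd.1 he⟩

end Pool.Agent.helper57.MS
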